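import Pool.Agent.OMF.Stmts

/-! Row EX1 of the squad OMF. -/

namespace Pool.Agent.OMF.H70

open Finset Pool.Agent.GTO Pool.Agent.OMF

/-- the vectors of the parametrisation -/
def pv (X v0 B : V) (κ s h : ℝ) : V := s • (v0 + h • B + (κ * h ^ 2) • X)

theorem pv_ap (X v0 B : V) (κ s h : ℝ) (j : Fin 3) :
    pv X v0 B κ s h j = s * (v0 j + h * B j + κ * h ^ 2 * X j) := by
  simp [pv]

theorem dt2 (X v0 B : V) (κ s h s' h' : ℝ) :
    dt X (pv X v0 B κ s h) (pv X v0 B κ s' h') = s * s' * (h' - h) * dt X v0 B := by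
  unfold dt
  simp only [pv_ap]
  ring

theorem dt3 (X v0 B : V) (κ s h s' h' s'' h'' : ℝ) :
    dt (pv X v0 B κ s h) (pv X v0 B κ s' h') (pv X v0 B κ s'' h'') =
      s * s' * s'' * κ * dt X v0 B * (h' - h) * (h'' - h) * (h'' - h') := by
  unfold dt
  simp only [pv_ap]
  ring

theorem ip1 (t X v0 B : V) (κ s h : ℝ) (h1 : ip t B = 0) (h2 : ip t X = 0) :
    ip t (pv X v0 B κ s h) = s * ip t v0 := by
  unfold ip at *
  simp only [pv_ap]
  linear_combination (s * h) * h1 + (s * κ * h ^ 2) * h2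

theorem dt_add (l v u : V) (c d : ℝ) : dt l v (c • v + d • u) = d * dt l v u := by
  unfold dt
  simp only [Pi.add_apply, Pi.smul_apply, smul_eq_mul]
  ring

theorem cr_add (v u : V) (c d : ℝ) : cr v (c • v + d • u) = d • cr v u := by
  funext j
  fin_cases j <;> simp [cr] <;> ring

/-- The sign information of one datum. -/
theorem sgn (hbas : BasStmt) (hlnq : LnqStmt) (ι : Type) [Fintype ι] (a : ι → V) (ha : PI a)
    (e : Fin 6 → ℝ) (he : NoLineQ e) (O G v w : ι) (hOG : O ≠ G) (hOv : O ≠ v) (hGv : G ≠ v)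
    (hO : O ∈ Zq a e) (hG : G ∈ Zq a e) (hv : v ∈ Zq a e) (hw : w ∉ Zq a e)
    (ht : Tri a G v w) (hS : SH a O G v w) (v0 B : V) (κ : ℝ) (s h : ι → ℝ)
    (hpar : ∀ i, i ∈ Zq a e → i ≠ O → s i ≠ 0 ∧ a i = pv (a O) v0 B κ (s i) (h i)) :
    ∃ c : ℝ, ∀ l, l ∈ Zq a e → l ≠ O → l ≠ G → l ≠ v → 0 < c * (h l - h G) := by
  obtain ⟨ε, hε⟩ := hS
  obtain ⟨-, -, -, hb4, -, hb6⟩ := hbas
  obtain ⟨-, hl2, -, -⟩ := hlnq
  obtain ⟨t1, t2, t3, t4⟩ := ht
  have hwl : dt (a G) (a v) (a w) = 0 := by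
    have : w ∈ ln a G v := by
      rw [t4]; simp
    exact (mem_filter.mp this).2
  obtain ⟨γ, α, hαγ⟩ := (hb4 (a G) (a v) (a w) (ha G v hGv)).mp hwl
  have hαγ' : a w = α • a v + γ • a G := by rw [hαγ, add_comm]
  refine ⟨ε * γ * s G * κ * (h G - h v), ?_⟩
  intro l hl hlO hlG hlv
  have hlw : l ≠ w := by
    rintro rfl; exact hw hl
  have hln : l ∉ ln a O v := fun hcon => hl2 ι a ha e he O v l hOv (Ne.symm hlv) hlO hcon hO hv hl
  have h1 := hε l hlO hlv hlw hlG hln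
  rw [hαγ', dt_add] at h1
  obtain ⟨-, el⟩ := hpar l hl hlO
  obtain ⟨-, ev⟩ := hpar v hv (Ne.symm hOv)
  obtain ⟨-, eG⟩ := hpar G hG (Ne.symm hOG)
  have e1 : dt (a l) (a v) (a G) = s l * s v * s G * κ * dt (a O) v0 B * (h v - h l) *
      (h G - h l) * (h G - h v) := by
    rw [el, ev, eG]
    exact dt3 (a O) v0 B κ _ _ _ _ _ _
  have e2 : dt (a O) (a v) (a l) = s v * s l * (h l - h v) * dt (a O) v0 B := by
    rw [el, ev]
    exact dt2 (a O) v0 B κ _ _ _ _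
  rw [e1, e2] at h1
  have h2 : ε * (γ * (s l * s v * s G * κ * dt (a O) v0 B * (h v - h l) * (h G - h l) *
      (h G - h v)) * (s v * s l * (h l - h v) * dt (a O) v0 B)) =
      (s l * s v * dt (a O) v0 B * (h l - h v)) ^ 2 *
        (ε * γ * s G * κ * (h G - h v) * (h l - h G)) := by
    ring
  rw [h2] at h1
  exact pos_of_mul_pos_right h1 (sq_nonneg _)

theorem ex1 (hbas : BasStmt) (hpar : ParStmt) (hlnq : LnqStmt) : Ex1Stmt := by
  intro ι _ a ha e he O G v w v' w' p hnd hO hG hv hv' hp hw hw' ht ht' hS hS'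
  simp only [List.nodup_cons, List.mem_cons, List.not_mem_nil, or_false, not_or, not_false_eq_true,
    List.nodup_nil, and_true] at hnd
  obtain ⟨⟨hOG, hOv, hOv', hOp⟩, ⟨hGv, hGv', hGp⟩, ⟨hvv', hvp⟩, hv'p⟩ := hnd
  have qO : quad e (a O) = 0 := (mem_filter.mp hO).2
  have qG : quad e (a G) = 0 := (mem_filter.mp hG).2
  obtain ⟨v0, B, κ, hκ, hdt, hβ, hB, hX, hP⟩ := hpar e (a O) (a G) he qO qG (ha O G hOG)
  have key : ∀ i, i ∈ Zq a e → i ≠ O →
      ∃ s h : ℝ, s ≠ 0 ∧ a i = pv (a O) v0 B κ s h := by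
    intro i hi hiO
    exact hP (a i) (mem_filter.mp hi).2 (ha O i (Ne.symm hiO))
  choose! s h hsh using key
  obtain ⟨c1, hc1⟩ := sgn hbas hlnq ι a ha e he O G v w hOG hOv hGv hO hG hv hw ht hS v0 B κ s h hsh
  obtain ⟨c2, hc2⟩ := sgn hbas hlnq ι a ha e he O G v' w' hOG hOv' hGv' hO hG hv' hw' ht' hS'
    v0 B κ s h hsh
  have p1 := hc1 p hp (Ne.symm hOp) (Ne.symm hGp) (Ne.symm hvp)
  have p2 := hc2 p hp (Ne.symm hOp) (Ne.symm hGp) (Ne.symm hv'p)
  have trans : ∀ c x y : ℝ, 0 < c * x → 0 < c * y → 0 < x * y := by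
    intro c x y h1 h2
    have h3 := mul_pos h1 h2
    have h4 : c * x * (c * y) = c ^ 2 * (x * y) := by ring
    rw [h4] at h3
    exact pos_of_mul_pos_right h3 (sq_nonneg _)
  have hall : ∀ P, P ∈ Zq a e → P ≠ O → P ≠ G → 0 < (h p - h G) * (h P - h G) := by
    intro P hPz hPO hPG
    by_cases hPv : P = v
    · have h1 := hc2 P hPz hPO hPG (by rw [hPv]; exact hvv')
      exact trans c2 _ _ p2 h1
    · have h1 := hc1 P hPz hPO hPG hPv
      exact trans c1 _ _ p1 h1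
  refine ⟨hG, Ne.symm hOG, dt (a O) v0 B * (h p - h G), ?_⟩
  intro P hPz hPO hPG
  obtain ⟨sP, eP⟩ := hsh P hPz hPO
  obtain ⟨sG, eG⟩ := hsh G hG (Ne.symm hOG)
  have e1 : dt (a O) (a G) (a P) = s G * s P * (h P - h G) * dt (a O) v0 B := by
    rw [eP, eG]
    exact dt2 (a O) v0 B κ _ _ _ _
  have e2 : ip (tg e (a O)) (a G) = s G * ip (tg e (a O)) v0 := by
    rw [eG]
    exact ip1 _ (a O) v0 B κ _ _ hB hX
  have e3 : ip (tg e (a O)) (a P) = s P * ip (tg e (a O)) v0 := by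
    rw [eP]
    exact ip1 _ (a O) v0 B κ _ _ hB hX
  rw [e1, e2, e3]
  have h2 : dt (a O) v0 B * (h p - h G) * (s G * s P * (h P - h G) * dt (a O) v0 B *
      (s G * ip (tg e (a O)) v0) * (s P * ip (tg e (a O)) v0)) =
      (dt (a O) v0 B * s G * s P * ip (tg e (a O)) v0) ^ 2 * ((h p - h G) * (h P - h G)) := by
    ring
  rw [h2]
  refine mul_pos ?_ (hall P hPz hPO hPG)
  have hne : dt (a O) v0 B * s G * s P * ip (tg e (a O)) v0 ≠ 0 :=
    mul_ne_zero (mul_ne_zero (mul_ne_zero hdt sG) sP) hβ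
  positivity

end Pool.Agent.OMF.H70
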